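import Pool.Agent.helper36.PT.Spec

/-! # Row PT:CFW (MP_ad8ced_nt) -/

set_option autoImplicit false

namespace Pool.Agent.PT

open Finset Pool.Agent.helper71.AA

lemma CFW_disj (w : ℕ) (X η : ℝ) : Disjoint (Qm w X η) (Ql X η) := by
  rw [Finset.disjoint_left]
  intro l h1 h2
  unfold Qm Qs at h1
  unfold Ql Qs at h2
  rw [mem_filter, mem_Ioc] at h1 h2
  omega

lemma CFW_pow (A P Q : Finset ℕ) (hd : Disjoint P Q) (hA : A ⊆ P ∪ Q) (f g : Finset ℕ → ℝ) :
    (∑ D ∈ (A ∩ P).powerset, f D) * (∑ K ∈ (A ∩ Q).powerset, g K) =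
      ∑ D ∈ A.powerset, f (D ∩ P) * g (D ∩ Q) := by
  rw [sum_mul_sum, ← sum_product']
  symm
  refine sum_nbij' (fun D => (D ∩ P, D ∩ Q)) (fun x => x.1 ∪ x.2) ?_ ?_ ?_ ?_ ?_
  · intro D hD
    rw [mem_powerset] at hD
    rw [mem_product, mem_powerset, mem_powerset]
    exact ⟨inter_subset_inter_right hD, inter_subset_inter_right hD⟩
  · intro x hx
    rw [mem_product, mem_powerset, mem_powerset] at hx
    rw [mem_powerset]
    exact union_subset (hx.1.trans inter_subset_left) (hx.2.trans inter_subset_left)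
  · intro D hD
    rw [mem_powerset] at hD
    simp only
    rw [← inter_union_distrib_left]
    exact inter_eq_left.mpr (hD.trans hA)
  · intro x hx
    rw [mem_product, mem_powerset, mem_powerset] at hx
    obtain ⟨x1, x2⟩ := x
    simp only at hx ⊢
    have h1 : x1 ⊆ P := hx.1.trans inter_subset_right
    have h2 : x2 ⊆ Q := hx.2.trans inter_subset_right
    rw [Finset.disjoint_left] at hd
    ext1
    · ext l
      simp only [mem_inter, mem_union]
      constructor
      · rintro ⟨h | h, h'⟩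
        · exact h
        · exact absurd (h2 h) (hd h')
      · intro h
        exact ⟨Or.inl h, h1 h⟩
    · ext l
      simp only [mem_inter, mem_union]
      constructor
      · rintro ⟨h | h, h'⟩
        · exact absurd h' (hd (h1 h))
        · exact h
      · intro h
        exact ⟨Or.inr h, h2 h⟩
  · intro D _
    rfl

theorem CFW (h1 : RPS_stmt) : CFW_stmt := by
  intro w hw η hη hη1
  refine ⟨max ((2 : ℝ) ^ (100000 : ℝ)) ((w : ℝ) ^ (1 / η)), ?_⟩
  intro X hX ξ hξ p
  have hX2 : (2 : ℝ) ^ (100000 : ℝ) ≤ X := (le_max_left _ _).trans hX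
  have hXw : (w : ℝ) ^ (1 / η) ≤ X := (le_max_right _ _).trans hX
  have hX1 : (1 : ℝ) ≤ X := by
    have : (1 : ℝ) ≤ (2 : ℝ) ^ (100000 : ℝ) := Real.one_le_rpow (by norm_num) (by norm_num)
    exact this.trans hX2
  have hX0 : (0 : ℝ) < X := lt_of_lt_of_le one_pos hX1
  have hR2 : (2 : ℝ) ≤ Rr X := by
    unfold Rr
    have h := Real.rpow_le_rpow (by positivity) hX2 (by norm_num : (0 : ℝ) ≤ 0.00001)
    rw [← Real.rpow_mul (by norm_num : (0 : ℝ) ≤ 2)] at h
    have e1 : (100000 : ℝ) * 0.00001 = 1 := by norm_num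
    rw [e1, Real.rpow_one] at h
    exact h
  have hR1 : (1 : ℝ) ≤ Rr X := by linarith
  have hR0 : (0 : ℝ) < Rr X := by linarith
  have hwX : (w : ℝ) ≤ X ^ η := by
    have h := Real.rpow_le_rpow (by positivity) hXw hη.le
    rw [← Real.rpow_mul (by positivity : (0 : ℝ) ≤ (w : ℝ))] at h
    have e1 : 1 / η * η = 1 := by field_simp
    rw [e1, Real.rpow_one] at h
    exact h
  have hRsq : Rr X ^ 2 = X ^ (0.00002 : ℝ) := by
    unfold Rr
    rw [← Real.rpow_natCast, ← Real.rpow_mul hX0.le]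
    norm_num
  obtain ⟨θ, hrep, hbd, hsu⟩ := h1 w ⌊X ^ η⌋₊ hw ((Qm w X η).erase p) (erase_subset _ _) (Rr X) hR1
  have hd := CFW_disj w X η
  refine ⟨θ, hrep, hsu, ?_, ?_, ?_⟩
  · intro A hA
    have hA1 : A ∩ Qm w X η ⊆ (Qm w X η).erase p := by
      intro l hl
      rw [mem_inter] at hl
      have h2 := hA hl.1
      rw [mem_erase] at h2 ⊢
      exact ⟨h2.1, hl.2⟩
    have h2 := hrep _ hA1
    simp only at h2
    unfold Fp U
    rw [h2, CFW_pow A _ _ hd (hA.trans (erase_subset _ _)) θ ξ]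
    refine sum_congr rfl fun D hD => ?_
    unfold xp
    rw [mem_powerset] at hD
    rw [if_pos (hD.trans hA)]
  · have key : ∀ D, xp w X η ξ θ p D ≠ 0 → D ⊆ (Qm w X η ∪ Ql X η).erase p ∧ θ (D ∩ Qm w X η) ≠ 0 ∧
        ξ (D ∩ Ql X η) ≠ 0 := by
      intro D hD
      unfold xp at hD
      split_ifs at hD with h
      · exact ⟨h, left_ne_zero_of_mul hD, right_ne_zero_of_mul hD⟩
      · exact absurd rfl hD
    have hpr : ∀ D, D ⊆ (Qm w X η ∪ Ql X η).erase p → pr D = pr (D ∩ Qm w X η) * pr (D ∩ Ql X η) := by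
      intro D hD
      have e1 : D = (D ∩ Qm w X η) ∪ (D ∩ Ql X η) := by
        rw [← inter_union_distrib_left]
        exact (inter_eq_left.mpr (hD.trans (erase_subset _ _))).symm
      have e2 : Disjoint (D ∩ Qm w X η) (D ∩ Ql X η) :=
        Disjoint.mono inter_subset_right inter_subset_right hd
      unfold pr
      rw [← prod_union e2, ← e1]
    have hpr0 : ∀ D : Finset ℕ, 0 ≤ pr D := by
      intro D
      unfold pr
      exact prod_nonneg fun l _ => Nat.cast_nonneg l
    constructor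
    · intro D
      have hpos : 0 ≤ X ^ (0.0001 : ℝ) := by positivity
      unfold xp
      split_ifs with h
      · rw [abs_mul]
        have hlog : Real.log (Rr X) ≤ Rr X - 1 := Real.log_le_sub_one_of_pos hR0
        have hlog0 : 0 ≤ Real.log (Rr X) := Real.log_nonneg hR1
        have h3 : (Rr X * (1 + Real.log (Rr X))) ^ 2 ≤ (Rr X * Rr X) ^ 2 := by
          apply pow_le_pow_left₀ (by positivity)
          apply mul_le_mul_of_nonneg_left _ hR0.le
          linarith
        have h4 : X ^ (0.0001 : ℝ) = Rr X ^ 10 := by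
          unfold Rr
          rw [← Real.rpow_natCast, ← Real.rpow_mul hX0.le]
          norm_num
        have h5 : (2 : ℝ) ≤ Rr X ^ 6 := by
          calc (2 : ℝ) ≤ 2 ^ 6 := by norm_num
            _ ≤ Rr X ^ 6 := pow_le_pow_left₀ (by norm_num) hR2 6
        calc |θ (D ∩ Qm w X η)| * |ξ (D ∩ Ql X η)| ≤ (Rr X * Rr X) ^ 2 * 2 :=
              mul_le_mul ((hbd _).trans h3) (hξ.bd _) (abs_nonneg _) (by positivity)
          _ = Rr X ^ 4 * 2 := by ring
          _ ≤ Rr X ^ 4 * Rr X ^ 6 := mul_le_mul_of_nonneg_left h5 (by positivity)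
          _ = X ^ (0.0001 : ℝ) := by rw [h4]; ring
      · rw [abs_zero]
        exact hpos
    · intro D hD l hl
      have h2 := (key D hD).1 hl
      rw [mem_erase, mem_union] at h2
      obtain ⟨h3, h4⟩ := h2
      rcases h4 with h4 | h4
      · unfold Qm Qs at h4
        rw [mem_filter, mem_Ioc] at h4
        exact ⟨h4.2, h4.1.1, h3⟩
      · unfold Ql Qs at h4
        rw [mem_filter, mem_Ioc] at h4
        have h5 : w ≤ ⌊X ^ η⌋₊ := Nat.le_floor hwX
        exact ⟨h4.2, lt_of_le_of_lt h5 h4.1.1, h3⟩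
    · intro D hD
      obtain ⟨h2, h3, h4⟩ := key D hD
      rw [hpr D h2]
      have h5 := (hsu _ h3).2
      have h6 := (hξ.su _ h4).2
      rw [hRsq] at h5
      calc pr (D ∩ Qm w X η) * pr (D ∩ Ql X η) ≤ X ^ (0.00002 : ℝ) * X ^ (0.553 : ℝ) :=
            mul_le_mul h5 h6 (hpr0 _) (by positivity)
        _ = X ^ (0.00002 + 0.553 : ℝ) := (Real.rpow_add hX0 _ _).symm
        _ ≤ X ^ (0.5531 : ℝ) := Real.rpow_le_rpow_of_exponent_le hX1 (by norm_num)
    · intro D hD
      obtain ⟨h2, h3, h4⟩ := key D hD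
      have h5 := (hsu _ h3).2
      rw [hRsq] at h5
      rcases hξ.ct _ h4 with ⟨K₁, hK, hK1, hK2⟩ | hK
      · left
        refine ⟨K₁ ∪ (D ∩ Qm w X η), ?_, ?_, ?_⟩
        · exact union_subset (hK.trans inter_subset_left) inter_subset_left
        · have e2 : Disjoint K₁ (D ∩ Qm w X η) :=
            Disjoint.mono (hK.trans inter_subset_right) inter_subset_right hd.symm
          have e3 : pr (K₁ ∪ (D ∩ Qm w X η)) = pr K₁ * pr (D ∩ Qm w X η) := by
            unfold pr
            exact prod_union e2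
          rw [e3]
          calc pr K₁ * pr (D ∩ Qm w X η) ≤ X ^ (0.445 : ℝ) * X ^ (0.00002 : ℝ) :=
                mul_le_mul hK1 h5 (hpr0 _) (by positivity)
            _ = X ^ (0.445 + 0.00002 : ℝ) := (Real.rpow_add hX0 _ _).symm
            _ ≤ X ^ (0.4451 : ℝ) := Real.rpow_le_rpow_of_exponent_le hX1 (by norm_num)
        · have e4 : D \ (K₁ ∪ (D ∩ Qm w X η)) = (D ∩ Ql X η) \ K₁ := by
            ext l
            simp only [mem_sdiff, mem_union, mem_inter, not_or, not_and]
            constructor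
            · rintro ⟨a1, a2, a3⟩
              have a4 := h2 a1
              rw [mem_erase, mem_union] at a4
              rcases a4.2 with a5 | a5
              · exact absurd a5 (a3 a1)
              · exact ⟨⟨a1, a5⟩, a2⟩
            · rintro ⟨⟨a1, a2⟩, a3⟩
              refine ⟨a1, a3, fun _ a5 => ?_⟩
              exact (Finset.disjoint_left.mp hd) a5 a2
          rw [e4]
          exact hK2
      · right
        rw [hpr D h2]
        calc pr (D ∩ Qm w X η) * pr (D ∩ Ql X η) ≤ X ^ (0.00002 : ℝ) * X ^ (0.499 : ℝ) :=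
              mul_le_mul h5 hK (hpr0 _) (by positivity)
          _ = X ^ (0.00002 + 0.499 : ℝ) := (Real.rpow_add hX0 _ _).symm
          _ ≤ X ^ (0.4991 : ℝ) := Real.rpow_le_rpow_of_exponent_le hX1 (by norm_num)
  · intro a
    have e1 : Az (Qm w X η ∪ Ql X η) p a ∩ Qm w X η = Az (Qm w X η) p a := by
      ext l
      unfold Az
      simp only [mem_inter, mem_filter, mem_union]
      tauto
    have e2 : Az (Qm w X η ∪ Ql X η) p a ∩ Ql X η = Az (Ql X η) p a := by
      ext l
      unfold Az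
      simp only [mem_inter, mem_filter, mem_union]
      tauto
    unfold fw Fp
    rw [e1, e2]

end Pool.Agent.PT
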